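import Pool.Agent.Y649.ETR.Stm

/-!
# Ultrametric schemes: formal self-duality (S_ULTRA)
-/

set_option linter.unusedSectionVars false
set_option autoImplicit false

namespace Pool.Agent.Y450.ETR

open Finset Pool.Agent.Results.MP_44674b_co.WreathExact Pool.Agent.Y649.ETR

section Diff

variable {d : ℕ} {V W : Type} [AddCommGroup V] [AddCommGroup W]

/-- differences of a finite sequence -/
def Df (u : Fin (d + 1) → V) : Fin (d + 1) → V :=
  Fin.cases (u 0) (fun j => u j.succ - u j.castSucc)

lemma Df_zero (u : Fin (d + 1) → V) : Df u 0 = u 0 := rfl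

lemma Df_succ (u : Fin (d + 1) → V) (j : Fin d) : Df u j.succ = u j.succ - u j.castSucc := rfl

lemma Df_map (φ : V →+ W) (u : Fin (d + 1) → V) (i : Fin (d + 1)) :
    φ (Df u i) = Df (fun i => φ (u i)) i := by
  induction i using Fin.cases with
  | zero => rfl
  | succ j => rw [Df_succ, Df_succ, map_sub]

lemma Df_comb {M : Type} [AddCommGroup M] [Module ℂ M] (u : Fin (d + 1) → M)
    (v : Fin (d + 1) → Fin (d + 1) → ℂ) (w : Fin (d + 1) → M)
    (hu : ∀ i, u i = ∑ l, v l i • w l) (i : Fin (d + 1)) :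
    Df u i = ∑ l, Df (v l) i • w l := by
  induction i using Fin.cases with
  | zero => simp only [Df_zero, hu]
  | succ j => simp only [Df_succ, hu, sub_smul, Finset.sum_sub_distrib]

lemma sum_Df (u : Fin (d + 1) → V) (i : Fin (d + 1)) :
    ∑ l ∈ univ.filter (fun l => l ≤ i), Df u l = u i := by
  induction i using Fin.induction with
  | zero =>
    have : univ.filter (fun l : Fin (d + 1) => l ≤ 0) = {0} := by
      ext l; simp
    rw [this, sum_singleton, Df_zero]
  | succ j ih =>
    have h1 : univ.filter (fun l : Fin (d + 1) => l ≤ j.succ) =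
        insert j.succ (univ.filter (fun l : Fin (d + 1) => l ≤ j.castSucc)) := by
      ext l
      simp only [mem_filter, mem_univ, true_and, mem_insert, Fin.le_def, Fin.ext_iff,
        Fin.val_succ, Fin.val_castSucc]
      omega
    rw [h1, sum_insert, ih, Df_succ]
    · abel
    · simp only [mem_filter, mem_univ, true_and, Fin.le_def, Fin.val_succ, Fin.val_castSucc]
      omega

lemma Df_mono (u : Fin (d + 1) → ℝ) (h0 : ∀ i, 0 ≤ u i)
    (h2 : ∀ i : Fin d, 2 * u i.castSucc ≤ u i.succ) : Monotone (Df u) := by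
  cases d with
  | zero =>
    intro i j _
    have : i = j := Fin.ext (by omega)
    rw [this]
  | succ d =>
    rw [Fin.monotone_iff_le_succ]
    intro i
    induction i using Fin.cases with
    | zero =>
      have := h2 0
      rw [Df_succ, Fin.castSucc_zero, Df_zero]
      rw [Fin.castSucc_zero] at this
      linarith
    | succ j =>
      have h3 := h2 j.succ
      have h4 := h0 j.castSucc.castSucc
      rw [Df_succ, ← Fin.succ_castSucc, Df_succ]
      rw [← Fin.succ_castSucc] at h3
      linarith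

end Diff

section Main

variable {X : Type} [Fintype X] [DecidableEq X] {d : ℕ} {c : X → X → Fin (d + 1)}

lemma adj_eq (c : X → X → Fin (d + 1)) (i : Fin (d + 1)) : adj c i = Df (ball c) i := by
  induction i using Fin.cases with
  | zero =>
    ext x y
    simp [adj, ball, Df_zero]
  | succ i =>
    rw [Df_succ]
    ext x y
    simp only [adj, ball, Matrix.sub_apply]
    rcases lt_trichotomy (c x y) i.succ with h | h | h
    · have h1 : c x y ≤ i.castSucc := Fin.le_castSucc_iff.mpr h
      rw [if_neg h.ne, if_pos h.le, if_pos h1, sub_self]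
    · have h1 : ¬ c x y ≤ i.castSucc := by
        rw [h, not_le]; exact Fin.castSucc_lt_succ
      rw [if_pos h, if_pos h.le, if_neg h1, sub_zero]
    · have h1 : ¬ c x y ≤ i.castSucc := by
        rw [not_le]; exact lt_trans Fin.castSucc_lt_succ h
      rw [if_neg h.ne', if_neg (not_le.mpr h), if_neg h1, sub_zero]

lemma bsize_pos (h : Ultra c) (x0 : X) (i : Fin (d + 1)) : 0 < bsize c x0 i := by
  rw [bsize, card_pos]
  exact ⟨x0, by simp [(h.diag x0 x0).mpr rfl]⟩

lemma bsize_top (c : X → X → Fin (d + 1)) (x0 : X) :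
    bsize c x0 (Fin.last d) = Fintype.card X := by
  rw [bsize]
  simp [Fin.le_last]

lemma bsize_zero (h : Ultra c) (x0 : X) : bsize c x0 0 = 1 := by
  rw [bsize]
  have : univ.filter (fun u => c x0 u ≤ 0) = {x0} := by
    ext u
    simp only [mem_filter, mem_univ, true_and, Fin.le_zero_iff, h.diag, mem_singleton]
    exact eq_comm
  rw [this, card_singleton]

/-- two disjoint balls of radius `i` in a ball of radius `i + 1` -/
lemma bsize_two (h : Ultra c) (hs : ∀ i, ∃ x y, c x y = i) (x0 : X) (i : Fin d) :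
    2 * bsize c x0 i.castSucc ≤ bsize c x0 i.succ := by
  obtain ⟨x, y, hxy⟩ := hs i.succ
  have e1 : bsize c x0 i.castSucc = (univ.filter fun u => c x u ≤ i.castSucc).card :=
    h.hom _ _ _
  have e2 : bsize c x0 i.castSucc = (univ.filter fun u => c y u ≤ i.castSucc).card :=
    h.hom _ _ _
  have e3 : bsize c x0 i.succ = (univ.filter fun u => c x u ≤ i.succ).card := h.hom _ _ _
  have hd : Disjoint (univ.filter fun u => c x u ≤ i.castSucc)
      (univ.filter fun u => c y u ≤ i.castSucc) := by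
    rw [Finset.disjoint_left]
    intro u hu hv
    simp only [mem_filter, mem_univ, true_and] at hu hv
    rw [h.symm y u] at hv
    have := h.le_of hu hv
    rw [hxy] at this
    exact absurd this (not_le.mpr Fin.castSucc_lt_succ)
  have hsub : (univ.filter fun u => c x u ≤ i.castSucc) ∪
      (univ.filter fun u => c y u ≤ i.castSucc) ⊆ univ.filter fun u => c x u ≤ i.succ := by
    intro u hu
    simp only [mem_union, mem_filter, mem_univ, true_and] at hu ⊢
    rcases hu with hu | hu
    · exact hu.trans Fin.castSucc_lt_succ.le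
    · exact h.le_of hxy.le (hu.trans Fin.castSucc_lt_succ.le)
  have := card_le_card hsub
  rw [card_union_of_disjoint hd, ← e1, ← e2, ← e3] at this
  omega

/-- the chain of projections -/
noncomputable def gg (c : X → X → Fin (d + 1)) (x0 : X) (i : Fin (d + 1)) : Matrix X X ℂ :=
  (bsize c x0 (Fin.rev i) : ℂ)⁻¹ • ball c (Fin.rev i)

lemma gg_mul_le (h : Ultra c) (x0 : X) {i j : Fin (d + 1)} (hij : i ≤ j) :
    gg c x0 i * gg c x0 j = gg c x0 i ∧ gg c x0 j * gg c x0 i = gg c x0 i := by
  have hr : Fin.rev j ≤ Fin.rev i := Fin.rev_le_rev.mpr hij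
  have hb : (bsize c x0 (Fin.rev j) : ℂ) ≠ 0 := by
    exact_mod_cast (bsize_pos h x0 (Fin.rev j)).ne'
  constructor
  · rw [gg, gg, smul_mul_smul_comm, mul_ball h hr x0, smul_smul, mul_assoc, inv_mul_cancel₀ hb,
      mul_one]
  · rw [gg, gg, smul_mul_smul_comm, ball_mul h hr x0, smul_smul]
    congr 1
    field_simp

lemma gg_last (h : Ultra c) (x0 : X) : gg c x0 (Fin.last d) = 1 := by
  rw [gg, Fin.rev_last, ball_zero h, bsize_zero h]
  simp

lemma gg_zero (x0 : X) : gg c x0 0 = Jn X := by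
  rw [gg, Fin.rev_zero, bsize_top, Jn]
  congr 1
  funext x y
  exact ball_last c x y

/-- the primitive idempotents -/
noncomputable def FF (c : X → X → Fin (d + 1)) (x0 : X) : Fin (d + 1) → Matrix X X ℂ :=
  Df (gg c x0)

lemma FF_zero (x0 : X) : FF c x0 0 = Jn X := by
  rw [FF, Df_zero, gg_zero]

lemma gg_mem (x0 : X) (i : Fin (d + 1)) : gg c x0 i ∈ boseMesner c :=
  Submodule.smul_mem _ _ (ball_mem c _)

lemma FF_mem (x0 : X) (i : Fin (d + 1)) : FF c x0 i ∈ boseMesner c := by
  rw [FF]
  induction i using Fin.cases with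
  | zero => exact gg_mem x0 0
  | succ j => exact Submodule.sub_mem _ (gg_mem x0 _) (gg_mem x0 _)

/-- `g_i F_j` is `F_j` or `0` -/
lemma gg_FF (h : Ultra c) (x0 : X) (i j : Fin (d + 1)) :
    gg c x0 i * FF c x0 j = if j ≤ i then FF c x0 j else 0 := by
  rw [FF]
  induction j using Fin.cases with
  | zero =>
    rw [if_pos (Fin.zero_le _), Df_zero]
    exact (gg_mul_le h x0 (Fin.zero_le _)).2
  | succ j =>
    rw [Df_succ, mul_sub]
    by_cases hj : j.succ ≤ i
    · rw [if_pos hj, (gg_mul_le h x0 hj).2,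
        (gg_mul_le h x0 (Fin.castSucc_lt_succ.le.trans hj)).2]
    · rw [if_neg hj]
      have h1 : i ≤ j.succ := le_of_not_ge hj
      have h2 : i ≤ j.castSucc := Fin.le_castSucc_iff.mpr (not_le.mp hj)
      rw [(gg_mul_le h x0 h1).1, (gg_mul_le h x0 h2).1, sub_self]

lemma FF_mul (h : Ultra c) (x0 : X) (i j : Fin (d + 1)) :
    FF c x0 i * FF c x0 j = if i = j then FF c x0 j else 0 := by
  conv_lhs => rw [FF]
  induction i using Fin.cases with
  | zero =>
    rw [Df_zero, ← FF, gg_FF h x0]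
    simp only [Fin.le_zero_iff, eq_comm]
  | succ i =>
    rw [Df_succ, sub_mul, ← FF, gg_FF h x0, gg_FF h x0]
    rcases lt_trichotomy j i.succ with hj | hj | hj
    · rw [if_pos hj.le, if_pos (Fin.le_castSucc_iff.mpr hj), if_neg hj.ne', sub_self]
    · rw [if_pos hj.le, if_neg, if_pos hj.symm, sub_zero]
      rw [hj, not_le]; exact Fin.castSucc_lt_succ
    · rw [if_neg (not_le.mpr hj), if_neg, if_neg hj.ne, sub_zero]
      rw [not_le]; exact Fin.castSucc_lt_succ.trans hj

lemma ball_eq (h : Ultra c) (x0 : X) (i : Fin (d + 1)) :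
    ball c i = ∑ l, (if l ≤ Fin.rev i then (bsize c x0 i : ℂ) else 0) • FF c x0 l := by
  have h1 := sum_Df (gg c x0) (Fin.rev i)
  have hb : (bsize c x0 i : ℂ) ≠ 0 := by exact_mod_cast (bsize_pos h x0 i).ne'
  have h2 : ball c i = (bsize c x0 i : ℂ) • gg c x0 (Fin.rev i) := by
    rw [gg, Fin.rev_rev, smul_smul, mul_inv_cancel₀ hb, one_smul]
  rw [h2, ← h1, sum_filter, smul_sum]
  refine sum_congr rfl fun l _ => ?_
  by_cases hl : l ≤ Fin.rev i
  · rw [if_pos hl, if_pos hl]; rfl
  · rw [if_neg hl, if_neg hl, smul_zero, zero_smul]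

lemma ball_adj (c : X → X → Fin (d + 1)) (i : Fin (d + 1)) :
    ball c i = ∑ l, (if l ≤ i then (1 : ℂ) else 0) • adj c l := by
  rw [ball_eq_sum, sum_filter]
  refine sum_congr rfl fun l _ => ?_
  by_cases hl : l ≤ i
  · rw [if_pos hl, if_pos hl, one_smul]
  · rw [if_neg hl, if_neg hl, zero_smul]

/-- every element of the algebra is a combination of the idempotents -/
lemma exists_comb (h : Ultra c) (x0 : X) {f : Matrix X X ℂ} (hf : f ∈ boseMesner c) :
    ∃ a : Fin (d + 1) → ℂ, f = ∑ l, a l • FF c x0 l := by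
  rw [boseMesner_eq] at hf
  induction hf using Submodule.span_induction with
  | zero => exact ⟨0, by simp⟩
  | add u v _ _ hu hv =>
    obtain ⟨a, ha⟩ := hu
    obtain ⟨b, hb⟩ := hv
    exact ⟨a + b, by rw [ha, hb, ← sum_add_distrib]; simp only [Pi.add_apply, add_smul]⟩
  | smul r u _ hu =>
    obtain ⟨a, ha⟩ := hu
    exact ⟨r • a, by rw [ha, smul_sum]; simp only [Pi.smul_apply, smul_eq_mul, mul_smul]⟩
  | mem u hu =>
    obtain ⟨i, rfl⟩ := hu
    exact ⟨_, ball_eq h x0 i⟩

lemma FF_comb (h : Ultra c) (x0 : X) (a : Fin (d + 1) → ℂ) (j : Fin (d + 1)) :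
    FF c x0 j * (∑ l, a l • FF c x0 l) = a j • FF c x0 j ∧
      (∑ l, a l • FF c x0 l) * FF c x0 j = a j • FF c x0 j := by
  constructor
  · rw [mul_sum, sum_eq_single j]
    · rw [mul_smul_comm, FF_mul h, if_pos rfl]
    · intro l _ hl
      rw [mul_smul_comm, FF_mul h, if_neg hl.symm, smul_zero]
    · intro hj; exact absurd (mem_univ _) hj
  · rw [sum_mul, sum_eq_single j]
    · rw [smul_mul_assoc, FF_mul h, if_pos rfl]
    · intro l _ hl
      rw [smul_mul_assoc, FF_mul h, if_neg hl, smul_zero]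
    · intro hj; exact absurd (mem_univ _) hj

/-- the sizes in the dual order -/
noncomputable def bd (c : X → X → Fin (d + 1)) (x0 : X) (i : Fin (d + 1)) : ℝ :=
  (Fintype.card X : ℝ) / bsize c x0 (Fin.rev i)

lemma gg_trace (h : Ultra c) (x0 : X) (i : Fin (d + 1)) :
    Matrix.trace (gg c x0 i) = ((bd c x0 i : ℝ) : ℂ) := by
  rw [gg, Matrix.trace_smul, bd]
  have : Matrix.trace (ball c (Fin.rev i)) = (Fintype.card X : ℂ) := by
    rw [Matrix.trace]
    have : ∀ x, (ball c (Fin.rev i)).diag x = 1 := by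
      intro x
      simp [Matrix.diag_apply, ball, (h.diag x x).mpr rfl]
    rw [sum_congr rfl fun x _ => this x]
    simp
  rw [this, smul_eq_mul]
  push_cast
  rw [div_eq_mul_inv, mul_comm]

lemma ofReal_Df (u : Fin (d + 1) → ℝ) (i : Fin (d + 1)) :
    ((Df u i : ℝ) : ℂ) = Df (fun i => ((u i : ℝ) : ℂ)) i :=
  Df_map Complex.ofRealHom.toAddMonoidHom u i

lemma FF_trace (h : Ultra c) (x0 : X) (i : Fin (d + 1)) :
    Matrix.trace (FF c x0 i) = ((Df (bd c x0) i : ℝ) : ℂ) := by
  rw [ofReal_Df]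
  have := Df_map (Matrix.traceAddMonoidHom X ℂ) (gg c x0) i
  simp only [Matrix.traceAddMonoidHom_apply] at this
  rw [FF, this]
  congr 1
  funext i
  exact gg_trace h x0 i

lemma bd_two (h : Ultra c) (hs : ∀ i, ∃ x y, c x y = i) (x0 : X) (i : Fin d) :
    2 * bd c x0 i.castSucc ≤ bd c x0 i.succ := by
  have h1 := bsize_two h hs x0 (Fin.rev i)
  have h2 : (0 : ℝ) < bsize c x0 (Fin.rev i).castSucc := by
    exact_mod_cast bsize_pos h x0 _
  have h3 : (0 : ℝ) < bsize c x0 (Fin.rev i).succ := by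
    exact_mod_cast bsize_pos h x0 _
  have h4 : (2 : ℝ) * bsize c x0 (Fin.rev i).castSucc ≤ bsize c x0 (Fin.rev i).succ := by
    exact_mod_cast h1
  rw [bd, bd, Fin.rev_castSucc, Fin.rev_succ, ← mul_div_assoc, div_le_div_iff₀ h3 h2]
  have h5 : (0 : ℝ) ≤ Fintype.card X := Nat.cast_nonneg _
  nlinarith

lemma bd_pos (h : Ultra c) (x0 : X) (i : Fin (d + 1)) : 0 < bd c x0 i := by
  rw [bd]
  have h1 : (0 : ℝ) < bsize c x0 (Fin.rev i) := by exact_mod_cast bsize_pos h x0 _
  have h2 : (0 : ℝ) < Fintype.card X := by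
    exact_mod_cast Fintype.card_pos_iff.mpr ⟨x0⟩
  positivity

lemma FF_ne (h : Ultra c) (hs : ∀ i, ∃ x y, c x y = i) (x0 : X) (i : Fin (d + 1)) :
    FF c x0 i ≠ 0 := by
  intro h0
  have h1 := FF_trace h x0 i
  rw [h0, Matrix.trace_zero] at h1
  have h2 : Df (bd c x0) i = 0 := by exact_mod_cast h1.symm
  induction i using Fin.cases with
  | zero =>
    rw [Df_zero] at h2
    exact absurd h2 (bd_pos h x0 0).ne'
  | succ j =>
    rw [Df_succ] at h2
    have h3 := bd_two h hs x0 j
    have h4 := bd_pos h x0 j.castSucc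
    linarith

lemma FF_inj (h : Ultra c) (hs : ∀ i, ∃ x y, c x y = i) (x0 : X) :
    Function.Injective (FF c x0) := by
  intro i j hij
  by_contra hne
  have h1 := FF_mul h x0 i j
  rw [if_neg hne, hij, FF_mul h, if_pos rfl] at h1
  exact FF_ne h hs x0 j h1

lemma prim_iff (h : Ultra c) (hs : ∀ i, ∃ x y, c x y = i) (x0 : X) (e : Matrix X X ℂ) :
    (h.scheme hs).IsPrimitiveIdempotent e ↔ ∃ j, FF c x0 j = e := by
  constructor
  · rintro ⟨he, hee, he0, hp⟩
    obtain ⟨a, ha⟩ := exists_comb h x0 he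
    have : ∃ l, a l ≠ 0 := by
      by_contra hc
      push Not at hc
      apply he0
      rw [ha]
      simp [hc]
    obtain ⟨l, hl⟩ := this
    have h1 : e * FF c x0 l = a l • FF c x0 l := by
      conv_lhs => rw [ha]
      exact (FF_comb h x0 a l).2
    have h2 : (a l * a l) • FF c x0 l = a l • FF c x0 l := by
      calc (a l * a l) • FF c x0 l = e * (e * FF c x0 l) := by
            rw [h1, mul_smul_comm, h1, smul_smul]
        _ = a l • FF c x0 l := by rw [← mul_assoc, hee, h1]
    have h3 : a l = 1 := by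
      have h4 : (a l * a l - a l) • FF c x0 l = 0 := by rw [sub_smul, h2, sub_self]
      rcases smul_eq_zero.mp h4 with h5 | h5
      · have h6 : a l * (a l - 1) = 0 := by linear_combination h5
        rcases mul_eq_zero.mp h6 with h7 | h7
        · exact absurd h7 hl
        · exact sub_eq_zero.mp h7
      · exact absurd h5 (FF_ne h hs x0 l)
    refine ⟨l, ?_⟩
    rcases hp (FF c x0 l) (FF_mem x0 l) (by rw [FF_mul h, if_pos rfl])
      (by rw [h1, h3, one_smul]) with h4 | h4
    · exact absurd h4 (FF_ne h hs x0 l)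
    · exact h4
  · rintro ⟨j, rfl⟩
    refine ⟨FF_mem x0 j, by rw [FF_mul h, if_pos rfl], FF_ne h hs x0 j, ?_⟩
    intro f hf hff hef
    obtain ⟨a, ha⟩ := exists_comb h x0 hf
    have h1 : f = a j • FF c x0 j := by
      rw [← hef]
      conv_lhs => rw [ha]
      exact (FF_comb h x0 a j).1
    rw [h1, smul_mul_smul_comm, FF_mul h, if_pos rfl] at hff
    have h4 : (a j * a j - a j) • FF c x0 j = 0 := by rw [sub_smul, hff, sub_self]
    rcases smul_eq_zero.mp h4 with h5 | h5
    · have h6 : a j * (a j - 1) = 0 := by linear_combination h5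
      rcases mul_eq_zero.mp h6 with h7 | h7
      · left; rw [h1, h7, zero_smul]
      · right; rw [h1, sub_eq_zero.mp h7, one_smul]
    · exact absurd h5 (FF_ne h hs x0 j)

lemma val_eq (x0 : X) (i : Fin (d + 1)) :
    (val c x0 i : ℝ) = Df (fun i => (bsize c x0 i : ℝ)) i := by
  have h1 : ((val c x0 i : ℝ) : ℂ) = ∑ y, adj c i x0 y := by
    simp only [adj, Finset.sum_boole, Pool.Agent.Y649.ETR.val]
    push_cast
    rfl
  have h2 : ∀ i, (((bsize c x0 i : ℝ)) : ℂ) = ∑ y, ball c i x0 y := by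
    intro i
    simp only [ball, Finset.sum_boole, bsize]
    push_cast
    rfl
  let φ : Matrix X X ℂ →+ ℂ :=
    { toFun := fun M => ∑ y, M x0 y
      map_zero' := by simp
      map_add' := fun A B => by simp [sum_add_distrib] }
  have h3 := Df_map φ (ball c) i
  rw [← adj_eq] at h3
  have h4 : ((val c x0 i : ℝ) : ℂ) = ((Df (fun i => (bsize c x0 i : ℝ)) i : ℝ) : ℂ) := by
    rw [ofReal_Df, h1]
    refine Eq.trans h3 ?_
    congr 1
    funext i
    exact (h2 i).symm
  exact_mod_cast h4

/-- formal self-duality from the equations for the sizes -/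
lemma fsd_of (h : Ultra c) (hs : ∀ i, ∃ x y, c x y = i) (x0 : X)
    (hb : ∀ i : Fin (d + 1), bsize c x0 i * bsize c x0 (Fin.rev i) = Fintype.card X) :
    (h.scheme hs).FormallySelfDual := by
  let v : Fin (d + 1) → Fin (d + 1) → ℂ := fun l i =>
    if l ≤ Fin.rev i then (bsize c x0 i : ℂ) else 0
  refine ⟨1, FF c x0, fun l i => Df (v l) i, fun l i => Df (v l) i, FF_inj h hs x0,
    prim_iff h hs x0, FF_zero x0, ?_, ?_, rfl⟩
  · intro i
    change adj c i = _
    rw [adj_eq]
    exact Df_comb (ball c) v (FF c x0) (fun i => ball_eq h x0 i) i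
  · intro i
    change FF c x0 i = (Fintype.card X : ℂ)⁻¹ • ∑ j, Df (v j) i • adj c j
    have hN : (Fintype.card X : ℂ) ≠ 0 := by
      have : 0 < Fintype.card X := Fintype.card_pos_iff.mpr ⟨x0⟩
      exact_mod_cast this.ne'
    have h1 : ∀ i, (Fintype.card X : ℂ) • gg c x0 i = ∑ l, v l i • adj c l := by
      intro i
      have hbi : (bsize c x0 (Fin.rev i) : ℂ) ≠ 0 := by
        exact_mod_cast (bsize_pos h x0 (Fin.rev i)).ne'
      have h2 : (bsize c x0 i : ℂ) * bsize c x0 (Fin.rev i) = Fintype.card X := by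
        exact_mod_cast hb i
      rw [gg, smul_smul, ← h2, mul_assoc, mul_inv_cancel₀ hbi, mul_one, ball_adj, smul_sum]
      refine sum_congr rfl fun l _ => ?_
      rw [smul_smul]
      congr 1
      simp only [v]
      split_ifs <;> simp
    have h2 := Df_comb (fun i => (Fintype.card X : ℂ) • gg c x0 i) v (adj c) h1 i
    rw [← h2]
    let φ : Matrix X X ℂ →+ Matrix X X ℂ :=
      { toFun := fun M => (Fintype.card X : ℂ) • M
        map_zero' := smul_zero _
        map_add' := fun A B => smul_add _ A B }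
    have h3 := Df_map φ (gg c x0) i
    have h4 : (Fintype.card X : ℂ) • FF c x0 i =
      Df (fun i => (Fintype.card X : ℂ) • gg c x0 i) i := h3
    rw [← h4, smul_smul, inv_mul_cancel₀ hN, one_smul]

end Main

theorem main (hF : S_FSD) : S_ULTRA := by
  intro X _ _ d c h hs x0
  refine ⟨fun hfsd i => ?_, fsd_of h hs x0⟩
  obtain ⟨σ, E, hinj, hprim, hE0, hσ0, hval⟩ := hF X d (h.scheme hs) hfsd
  change ∀ i x, (val c x (σ i) : ℂ) = Matrix.trace (E i) at hval
  -- the enumeration
  have h1 : ∀ j, ∃ l, FF c x0 l = E j := fun j => (prim_iff h hs x0 (E j)).mp ((hprim _).mpr ⟨j, rfl⟩)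
  choose τ hτ using h1
  have hτi : Function.Injective τ := by
    intro i j hij
    apply hinj
    rw [← hτ i, ← hτ j, hij]
  have hτb : Function.Bijective τ := Finite.injective_iff_bijective.mp hτi
  let τe : Equiv.Perm (Fin (d + 1)) := Equiv.ofBijective τ hτb
  let ρ : Equiv.Perm (Fin (d + 1)) := τe.symm.trans σ
  have hk : (fun i => (val c x0 i : ℝ)) = Df (fun i => (bsize c x0 i : ℝ)) := by
    funext i; exact val_eq x0 i
  have hm : (fun i => (val c x0 i : ℝ)) ∘ ρ = Df (bd c x0) := by
    funext j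
    have h2 := hval (τe.symm j) x0
    have h3 : FF c x0 j = E (τe.symm j) := by
      rw [← hτ (τe.symm j)]
      congr 1
      exact (Equiv.apply_symm_apply τe j).symm
    rw [← h3, FF_trace h x0 j] at h2
    have h4 : (val c x0 (ρ j) : ℝ) = Df (bd c x0) j := by exact_mod_cast h2
    exact h4
  have mono1 : Monotone ((fun i => (val c x0 i : ℝ)) ∘ (1 : Equiv.Perm (Fin (d + 1)))) := by
    change Monotone (fun i => (val c x0 i : ℝ))
    rw [hk]
    refine Df_mono _ (fun i => Nat.cast_nonneg _) (fun i => ?_)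
    exact_mod_cast bsize_two h hs x0 i
  have mono2 : Monotone ((fun i => (val c x0 i : ℝ)) ∘ ρ) := by
    rw [hm]
    exact Df_mono _ (fun i => (bd_pos h x0 i).le) (fun i => bd_two h hs x0 i)
  have heq := Tuple.unique_monotone mono1 mono2
  rw [hm] at heq
  have heq' : Df (fun i => (bsize c x0 i : ℝ)) = Df (bd c x0) := by
    rw [← hk]; exact heq
  have h5 : (bsize c x0 i : ℝ) = bd c x0 i := by
    rw [← sum_Df (bd c x0) i, ← heq', sum_Df]
  rw [bd, eq_div_iff] at h5
  · exact_mod_cast h5
  · exact_mod_cast (bsize_pos h x0 (Fin.rev i)).ne'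

end Pool.Agent.Y450.ETR
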